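import Mathlib

/-!
Determinants of four points of space, the circuit relation of five points,
and the perturbation to general position.
-/

namespace TangleSat

open Polynomial

/-- Signed volume of the tetrahedron `a b c d` (times six). -/
def det4 {R : Type*} [CommRing R] (a b c d : Fin 3 → R) : R :=
  (b 0 - a 0) * ((c 1 - a 1) * (d 2 - a 2) - (c 2 - a 2) * (d 1 - a 1))
  - (b 1 - a 1) * ((c 0 - a 0) * (d 2 - a 2) - (c 2 - a 2) * (d 0 - a 0))
  + (b 2 - a 2) * ((c 0 - a 0) * (d 1 - a 1) - (c 1 - a 1) * (d 0 - a 0))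

theorem circuit (n : Fin 3 → ℝ) (s : ℝ) (a b c d e : Fin 3 → ℝ) :
    det4 b c d e * (n ⬝ᵥ a - s) - det4 a c d e * (n ⬝ᵥ b - s) + det4 a b d e * (n ⬝ᵥ c - s)
      - det4 a b c e * (n ⬝ᵥ d - s) + det4 a b c d * (n ⬝ᵥ e - s) = 0 := by
  simp only [det4, dotProduct, Fin.sum_univ_three]
  ring

/-- The moment curve. -/
def curve (u : ℝ) : Fin 3 → ℝ := ![u, u ^ 2, u ^ 3]

theorem det4_curve (p q r s : ℝ) :
    det4 (curve p) (curve q) (curve r) (curve s) =
      (q - p) * (r - p) * (s - p) * (r - q) * (s - q) * (s - r) := by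
  simp only [det4, curve, Matrix.cons_val_zero, Matrix.cons_val_one, Matrix.cons_val]
  ring

/-- Segment from `a` to `w` at time `t`. -/
def mv (t : ℝ) (a w : Fin 3 → ℝ) : Fin 3 → ℝ := fun i => (1 - t) * a i + t * w i

theorem mv_zero (a w : Fin 3 → ℝ) : mv 0 a w = a := by
  funext i; simp [mv]

noncomputable def mvP (a w : Fin 3 → ℝ) : Fin 3 → ℝ[X] :=
  fun i => (1 - X) * C (a i) + X * C (w i)

theorem eval_det4 (t : ℝ) (a b c d a' b' c' d' : Fin 3 → ℝ) :
    (det4 (mvP a a') (mvP b b') (mvP c c') (mvP d d')).eval t =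
      det4 (mv t a a') (mv t b b') (mv t c c') (mv t d d') := by
  simp [det4, mvP, mv]
  ring

theorem finite_bad (a b c d a' b' c' d' : Fin 3 → ℝ) (h : det4 a' b' c' d' ≠ 0) :
    {t : ℝ | det4 (mv t a a') (mv t b b') (mv t c c') (mv t d d') = 0}.Finite := by
  have hne : det4 (mvP a a') (mvP b b') (mvP c c') (mvP d d') ≠ 0 := by
    intro h0
    have := eval_det4 1 a b c d a' b' c' d'
    rw [h0] at this
    apply h
    have e : ∀ u v : Fin 3 → ℝ, mv 1 u v = v := by
      intro u v; funext i; simp [mv]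
    simpa [e] using this.symm
  refine (Polynomial.finite_setOfPred_isRoot hne).subset ?_
  intro t ht
  simp only [Set.mem_ofPred_eq, Polynomial.IsRoot.def] at *
  rw [eval_det4]; exact ht

theorem continuous_mv (a w : Fin 3 → ℝ) : Continuous fun t => mv t a w := by
  unfold mv
  fun_prop

end TangleSat
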