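import Pool.Agent.Lib_helper45.Tangle.Checker
import Pool.Agent.Lib_helper45.Tangle.Geom

/-!
The combinatorial core: eight points of space in general position and eleven affine
functionals with prescribed signs at these points cannot exist.
-/

namespace TangleSat

/-- A circuit clause: five points `q0 < q1 < q2 < q3 < q4`, a functional `e`, a sign. -/
structure Item where
  q0 : Nat
  q1 : Nat
  q2 : Nat
  q3 : Nat
  q4 : Nat
  e : Nat
  pos : Bool

def tabL : List (List Int) :=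
  [[1, 1, 1, 1, 1, 1, 1, 1],
   [-1, -1, 1, 1, 1, 1, 2, 1],
   [-1, -1, 1, -1, 2, 1, 1, -1],
   [0, -1, 1, 1, 2, 1, 2, 1],
   [-1, 0, -1, 1, 1, -1, 1, 1],
   [-1, -1, 0, -1, -1, 1, 1, 1],
   [1, 1, -1, 0, -1, 1, 2, 1],
   [1, 1, -1, -1, 0, 1, 1, 1],
   [1, -1, -1, 1, 2, 0, -1, 1],
   [-1, 1, -1, -1, 1, -1, 0, 1],
   [-1, 1, 1, -1, 1, -1, 1, 0]]

def items : List Item :=
  [⟨1, 2, 5, 6, 7, 7, true⟩,
   ⟨0, 1, 2, 3, 5, 5, true⟩,
   ⟨0, 1, 2, 3, 4, 9, true⟩,
   ⟨0, 1, 2, 3, 5, 9, true⟩,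
   ⟨1, 2, 3, 4, 5, 4, true⟩,
   ⟨0, 2, 3, 4, 7, 10, true⟩,
   ⟨1, 3, 5, 6, 7, 8, false⟩,
   ⟨0, 1, 2, 4, 5, 7, false⟩,
   ⟨1, 2, 3, 5, 6, 0, true⟩,
   ⟨1, 2, 3, 5, 6, 9, false⟩,
   ⟨1, 2, 3, 6, 7, 7, true⟩,
   ⟨1, 2, 5, 6, 7, 2, true⟩,
   ⟨0, 1, 2, 3, 5, 7, false⟩,
   ⟨0, 2, 3, 4, 5, 6, false⟩,
   ⟨1, 2, 3, 5, 7, 6, true⟩,
   ⟨2, 3, 5, 6, 7, 0, false⟩,
   ⟨0, 1, 2, 3, 4, 5, false⟩,
   ⟨1, 2, 3, 4, 5, 6, false⟩,
   ⟨0, 2, 3, 4, 7, 9, true⟩,
   ⟨1, 2, 3, 5, 7, 10, false⟩,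
   ⟨0, 1, 2, 3, 4, 1, true⟩,
   ⟨1, 2, 3, 4, 7, 1, true⟩,
   ⟨1, 2, 3, 5, 6, 5, true⟩,
   ⟨0, 2, 3, 4, 7, 4, true⟩,
   ⟨1, 3, 5, 6, 7, 9, false⟩,
   ⟨1, 2, 3, 4, 7, 10, true⟩,
   ⟨1, 2, 3, 4, 7, 7, true⟩,
   ⟨0, 1, 2, 3, 7, 6, true⟩,
   ⟨1, 3, 5, 6, 7, 0, true⟩,
   ⟨1, 2, 3, 4, 5, 9, true⟩,
   ⟨0, 1, 2, 3, 7, 0, true⟩,
   ⟨1, 2, 3, 5, 6, 7, true⟩,
   ⟨1, 2, 3, 4, 5, 5, false⟩,
   ⟨1, 2, 5, 6, 7, 10, true⟩,
   ⟨0, 1, 2, 3, 4, 10, true⟩,
   ⟨1, 2, 3, 4, 7, 4, true⟩,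
   ⟨0, 1, 2, 4, 5, 10, true⟩,
   ⟨2, 3, 5, 6, 7, 8, true⟩,
   ⟨1, 3, 5, 6, 7, 10, true⟩,
   ⟨0, 2, 3, 4, 7, 1, true⟩,
   ⟨1, 2, 5, 6, 7, 8, false⟩,
   ⟨1, 2, 3, 5, 7, 4, false⟩,
   ⟨2, 3, 5, 6, 7, 9, true⟩,
   ⟨0, 1, 2, 3, 5, 0, false⟩,
   ⟨1, 2, 3, 5, 7, 5, true⟩,
   ⟨1, 2, 3, 5, 7, 1, true⟩,
   ⟨0, 1, 2, 3, 7, 10, false⟩,
   ⟨1, 2, 3, 6, 7, 0, true⟩,
   ⟨0, 1, 2, 3, 5, 6, false⟩,
   ⟨0, 1, 2, 3, 5, 4, true⟩,
   ⟨1, 3, 5, 6, 7, 7, true⟩,
   ⟨2, 3, 5, 6, 7, 5, false⟩,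
   ⟨0, 1, 2, 3, 7, 9, false⟩,
   ⟨1, 2, 3, 5, 7, 0, true⟩,
   ⟨0, 1, 2, 3, 4, 10, false⟩,
   ⟨0, 2, 3, 4, 5, 9, true⟩,
   ⟨0, 1, 2, 3, 7, 3, true⟩,
   ⟨0, 1, 2, 3, 7, 5, false⟩,
   ⟨0, 2, 3, 4, 5, 5, false⟩,
   ⟨0, 1, 2, 3, 7, 4, true⟩,
   ⟨0, 1, 2, 4, 7, 1, true⟩,
   ⟨1, 2, 3, 5, 6, 8, false⟩,
   ⟨1, 2, 3, 6, 7, 5, true⟩,
   ⟨1, 2, 3, 4, 7, 0, true⟩,
   ⟨0, 2, 3, 4, 5, 4, true⟩,
   ⟨0, 1, 2, 4, 7, 10, true⟩,
   ⟨0, 1, 2, 3, 5, 8, false⟩,
   ⟨1, 3, 5, 6, 7, 2, true⟩,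
   ⟨0, 1, 2, 4, 7, 4, true⟩,
   ⟨1, 2, 5, 6, 7, 5, true⟩,
   ⟨1, 3, 5, 6, 7, 4, true⟩,
   ⟨1, 2, 3, 4, 7, 5, false⟩,
   ⟨1, 3, 5, 6, 7, 5, true⟩,
   ⟨0, 1, 2, 4, 5, 4, true⟩,
   ⟨0, 1, 2, 4, 5, 5, false⟩,
   ⟨1, 2, 3, 5, 7, 9, false⟩,
   ⟨2, 3, 5, 6, 7, 10, false⟩,
   ⟨0, 1, 2, 3, 4, 9, false⟩,
   ⟨1, 2, 5, 6, 7, 0, true⟩,
   ⟨1, 2, 3, 6, 7, 10, true⟩,
   ⟨0, 1, 2, 3, 4, 5, true⟩,
   ⟨1, 2, 3, 4, 5, 10, true⟩,
   ⟨0, 1, 2, 3, 4, 4, true⟩]

def unitVar : Nat := 87 --  [0, 1, 2, 7] True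

def steps : List (Cls × List Nat) :=
  [([(671, true), (159, true), (95, true), (83, false)], [83, 52]),
   ([(159, true), (95, true), (83, true)], [83, 56]),
   ([(671, true), (159, false), (83, false)], [83, 57]),
   ([(671, false), (95, false), (83, true)], [83, 59]),
   ([(679, false), (167, true), (103, true), (84, true)], [83, 60]),
   ([(679, false), (167, false), (103, true)], [83, 65]),
   ([(679, false), (103, false), (84, true)], [83, 68]),
   ([(687, true), (671, false), (1263, false), (751, false)], [45, 75]),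
   ([(671, false), (751, false), (1263, false)], [91, 41, 44]),
   ([(159, true), (671, true)], [83, 46, 85, 84]),
   ([(83, true), (159, false), (671, true)], [83, 27, 30]),
   ([(159, false), (671, true)], [86, 94]),
   ([(671, true)], [93, 95]),
   ([(668, true), (679, true), (1255, false)], [96, 35, 21]),
   ([(677, false), (668, false), (1253, true), (669, false)], [29, 81]),
   ([(668, false), (669, false), (1253, true)], [32, 98]),
   ([(679, true), (668, true), (1255, true)], [96, 63, 35]),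
   ([(1263, true), (1399, false), (1911, false)], [37, 76, 51]),
   ([(668, true), (1255, true)], [96, 100, 25, 26]),
   ([(1271, false), (1399, true), (1911, false), (1263, true)], [15, 42]),
   ([(156, false), (165, true), (157, false), (1253, false)], [13, 64]),
   ([(156, true), (167, true), (1255, false), (159, false)], [23, 39]),
   ([(156, false), (157, false), (1253, false)], [13, 104, 55]),
   ([(156, true), (159, false), (1255, false)], [105, 5, 18]),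
   ([(101, true), (84, false), (677, false), (85, false)], [36, 7]),
   ([(84, false), (85, false), (677, false)], [73, 108]),
   ([(103, true), (84, true), (679, false)], [88, 89]),
   ([(84, true), (679, false)], [90, 110]),
   ([(750, false), (759, true), (751, false), (1911, false)], [24, 67]),
   ([(887, false), (687, false), (1399, true)], [33, 40, 78]),
   ([(759, true), (887, true), (751, false), (1911, false)], [112, 72]),
   ([(157, true), (83, false), (669, false), (85, true)], [43, 48]),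
   ([(157, true), (85, true), (669, false)], [1, 115]),
   ([(83, true), (159, true)], [96, 87, 85]),
   ([(670, false), (669, true), (1262, true), (686, false)], [31, 61]),
   ([(670, false), (669, true), (686, false)], [22, 118]),
   ([(669, true), (1263, true), (1911, false)], [96, 101, 103, 14, 53, 113, 114, 79, 47, 0, 119]),
   ([(85, false), (156, false), (84, false), (669, false), (1253, true)], [99, 16, 109, 74, 49, 58, 12]),
   ([(156, false), (84, false), (669, false), (1253, true)], [99, 16, 121, 116, 66, 3]),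
   ([(83, false), (156, true), (668, true), (84, false)], [54, 77]),
   ([(669, false), (668, false), (83, false), (84, false), (1253, false)], [17, 4, 109, 116, 66, 3]),
   ([(669, true), (1911, false)], [96, 120, 92, 44, 19]),
   ([(156, true), (84, false), (669, false), (1253, false), (1255, false)], [107, 117, 123, 124]),
   ([(83, false), (157, true), (669, false), (85, false)], [12, 49]),
   ([(84, false), (1255, false), (669, false), (1253, false)], [126, 106, 116, 109, 127, 16, 17, 4]),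
   ([(83, true), (156, false), (668, false), (84, true)], [2, 34]),
   ([(156, false), (668, false), (84, true), (669, false), (1253, false)], [106, 116, 127, 129]),
   ([(1255, false), (1253, false), (669, false)], [128, 111, 97, 130, 107, 80, 117]),
   ([(669, false), (1255, false)], [131, 99, 97, 111, 122, 107, 123, 117]),
   ([(887, true), (751, false), (1911, true)], [6, 38, 50]),
   ([(695, false), (670, true)], [96, 62, 79, 10]),
   ([(686, false), (887, false), (687, false), (669, true)], [113, 119, 11, 134]),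
   ([(750, false), (670, false), (686, true), (669, true)], [9, 8]),
   ([(1263, true), (669, true), (1911, true)], [96, 14, 53, 133, 113, 135, 69, 134, 136, 70, 28]),
   ([(669, true), (1911, true)], [96, 137, 92, 44, 19]),
   ([(669, false)], [96, 132, 102, 71, 99, 17, 111, 4, 124, 109, 82, 116, 20, 106]),
   ([(1911, false)], [139, 125]),
   ([], [139, 140, 138])]

/-- Sign of the functional `e` at the point `k` (`2` means: no information). -/
def tab (e k : Nat) : Int := (tabL.getD e []).getD k 2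

def code (a b c d : Nat) : Nat := ((a * 8 + b) * 8 + c) * 8 + d

/-- The literal saying that the `k`-th summand of the circuit relation is positive (for
`pos = true`) or negative (for `pos = false`). -/
def litOf (c : Nat) (v : Int) (sg pos : Bool) : Cls :=
  if v = 0 then [] else [(c, (decide (0 < v) == sg) == pos)]

def Item.cls (t : Item) : Cls :=
  litOf (code t.q1 t.q2 t.q3 t.q4) (tab t.e t.q0) true t.pos
  ++ (litOf (code t.q0 t.q2 t.q3 t.q4) (tab t.e t.q1) false t.pos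
  ++ (litOf (code t.q0 t.q1 t.q3 t.q4) (tab t.e t.q2) true t.pos
  ++ (litOf (code t.q0 t.q1 t.q2 t.q4) (tab t.e t.q3) false t.pos
  ++ litOf (code t.q0 t.q1 t.q2 t.q3) (tab t.e t.q4) true t.pos)))

def okV (v : Int) : Bool := v == 0 || v == 1 || v == -1

def Item.ok (t : Item) : Bool :=
  decide (t.q0 < t.q1) && decide (t.q1 < t.q2) && decide (t.q2 < t.q3) && decide (t.q3 < t.q4)
  && decide (t.q4 < 8) && decide (t.e < 11)
  && okV (tab t.e t.q0) && okV (tab t.e t.q1) && okV (tab t.e t.q2) && okV (tab t.e t.q3)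
  && okV (tab t.e t.q4)
  && !(tab t.e t.q0 == 0 && tab t.e t.q1 == 0)

def origs : List Cls := items.map Item.cls ++ [[(unitVar, true)]]

theorem items_ok : items.all Item.ok = true := by decide +kernel

theorem check_ok : checkAll origs steps = true := by decide +kernel

end TangleSat
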