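import Mathlib

/-!
A tiny verified RUP (reverse unit propagation) checker.
-/

namespace TangleSat

/-- A literal: a variable together with the polarity that makes it true. -/
abbrev Lit := Nat × Bool

abbrev Cls := List Lit

def evalLit (V : Nat → Bool) (l : Lit) : Bool := V l.1 == l.2

def evalCls (V : Nat → Bool) (c : Cls) : Bool := c.any (evalLit V)

def negLit (l : Lit) : Lit := (l.1, !l.2)

/-- Delete the literals of `c` that are false under the literals `A` (assumed true). -/
def reduce (A : List Lit) (c : Cls) : Cls := c.filter (fun l => !(A.contains (negLit l)))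

def getC (db : List Cls) (n : Nat) : Cls := db.getD n [(0, true), (0, false)]

def rup (db : List Cls) : List Lit → List Nat → Bool
  | _, [] => false
  | A, h :: hs =>
    match reduce A (getC db h) with
    | [] => true
    | [l] => rup db (l :: A) hs
    | _ => false

def checkAll (db : List Cls) : List (Cls × List Nat) → Bool
  | [] => false
  | (c, hs) :: rest =>
    rup db (c.map negLit) hs &&
      (c.isEmpty || checkAll (db ++ [c]) rest)

theorem evalCls_getC {V : Nat → Bool} {db : List Cls} (h : ∀ c ∈ db, evalCls V c = true)
    (n : Nat) : evalCls V (getC db n) = true := by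
  unfold getC
  rw [List.getD_eq_getElem?_getD]
  cases hn : db[n]? with
  | none =>
    simp [evalCls, evalLit]
  | some c =>
    simp only [Option.getD_some]
    exact h c (List.mem_of_getElem? hn)

theorem evalLit_negLit (V : Nat → Bool) (l : Lit) : evalLit V (negLit l) = !(evalLit V l) := by
  obtain ⟨v, b⟩ := l
  cases b <;> cases hV : V v <;> simp [evalLit, negLit, hV]

theorem reduce_true {V : Nat → Bool} {A : List Lit} (hA : ∀ l ∈ A, evalLit V l = true) {c : Cls}
    (hc : evalCls V c = true) : evalCls V (reduce A c) = true := by
  unfold evalCls at *
  rw [List.any_eq_true] at *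
  obtain ⟨l, hl, hv⟩ := hc
  refine ⟨l, ?_, hv⟩
  unfold reduce
  rw [List.mem_filter]
  refine ⟨hl, ?_⟩
  rw [Bool.not_eq_true']
  by_contra hcon
  rw [Bool.not_eq_false] at hcon
  rw [List.contains_iff_mem] at hcon
  have := hA _ hcon
  rw [evalLit_negLit, hv] at this
  simp at this

theorem rup_sound {V : Nat → Bool} {db : List Cls} (h : ∀ c ∈ db, evalCls V c = true) :
    ∀ (hs : List Nat) (A : List Lit), (∀ l ∈ A, evalLit V l = true) → rup db A hs = true →
      False := by
  intro hs
  induction hs with
  | nil => intro A _ hr; simp [rup] at hr
  | cons n hs ih =>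
    intro A hA hr
    have hred := reduce_true hA (evalCls_getC h n)
    unfold rup at hr
    split at hr
    · rename_i heq
      rw [heq] at hred
      simp [evalCls] at hred
    · rename_i l heq
      rw [heq] at hred
      refine ih (l :: A) ?_ hr
      intro l' hl'
      rcases List.mem_cons.1 hl' with rfl | hl'
      · simpa [evalCls] using hred
      · exact hA l' hl'
    · simp at hr

theorem checkAll_sound {V : Nat → Bool} : ∀ (steps : List (Cls × List Nat)) (db : List Cls),
    (∀ c ∈ db, evalCls V c = true) → checkAll db steps = true → False := by
  intro steps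
  induction steps with
  | nil => intro db _ h; simp [checkAll] at h
  | cons s rest ih =>
    obtain ⟨c, hs⟩ := s
    intro db hdb h
    unfold checkAll at h
    rw [Bool.and_eq_true] at h
    have hc : evalCls V c = true := by
      by_contra hcon
      rw [Bool.not_eq_true] at hcon
      refine rup_sound hdb hs _ ?_ h.1
      intro l hl
      rw [List.mem_map] at hl
      obtain ⟨l', hl', rfl⟩ := hl
      rw [evalLit_negLit]
      unfold evalCls at hcon
      rw [List.any_eq_false] at hcon
      have := hcon l' hl'
      rw [Bool.not_eq_true] at this
      rw [this]; rfl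
    rcases (Bool.or_eq_true _ _).mp h.2 with he | hrest
    · rw [List.isEmpty_iff] at he
      rw [he] at hc
      simp [evalCls] at hc
    · refine ih (db ++ [c]) ?_ hrest
      intro c' hc'
      rcases List.mem_append.1 hc' with h1 | h1
      · exact hdb c' h1
      · rw [List.mem_singleton] at h1
        rw [h1]; exact hc

end TangleSat
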