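import Pool.Agent.Lib_helper45.Tangle.Cert

namespace TangleSat

def SignSpec (v : Int) (r : ℝ) : Prop := (v = 0 → r = 0) ∧ (v = 1 → 0 < r) ∧ (v = -1 → r < 0)

def sgn (b : Bool) : ℝ := if b then 1 else -1

theorem okV_cases {v : Int} (h : okV v = true) : v = 0 ∨ v = 1 ∨ v = -1 := by
  simp only [okV, Bool.or_eq_true, beq_iff_eq] at h
  tauto

theorem litOf_false {V : Nat → Bool} {c : Nat} {D F : ℝ} (hD : D ≠ 0)
    (hV : V c = decide (0 < D)) {v : Int} (hv : okV v = true) (hs : SignSpec v F) (sg pos : Bool)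
    (h : evalCls V (litOf c v sg pos) = false) :
    sgn pos * (sgn sg * D * F) ≤ 0 ∧ (v ≠ 0 → sgn pos * (sgn sg * D * F) < 0) := by
  rcases okV_cases hv with rfl | rfl | rfl
  · rw [hs.1 rfl]; simp
  · have hF := hs.2.1 rfl
    have key : sgn pos * (sgn sg * D * F) < 0 := by
      rcases lt_or_gt_of_ne hD with hneg | hpos
      · have h1 : V c = false := by rw [hV]; simp [hneg.le]
        have h2 : D * F < 0 := mul_neg_of_neg_of_pos hneg hF
        cases sg <;> cases pos <;> simp [evalCls, evalLit, litOf, h1, sgn] at h ⊢ <;> linarith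
      · have h1 : V c = true := by rw [hV]; simp [hpos]
        have h2 : 0 < D * F := mul_pos hpos hF
        cases sg <;> cases pos <;> simp [evalCls, evalLit, litOf, h1, sgn] at h ⊢ <;> linarith
    exact ⟨key.le, fun _ => key⟩
  · have hF := hs.2.2 rfl
    have key : sgn pos * (sgn sg * D * F) < 0 := by
      rcases lt_or_gt_of_ne hD with hneg | hpos
      · have h1 : V c = false := by rw [hV]; simp [hneg.le]
        have h2 : 0 < D * F := mul_pos_of_neg_of_neg hneg hF
        cases sg <;> cases pos <;> simp [evalCls, evalLit, litOf, h1, sgn] at h ⊢ <;> linarith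
      · have h1 : V c = true := by rw [hV]; simp [hpos]
        have h2 : D * F < 0 := mul_neg_of_pos_of_neg hpos hF
        cases sg <;> cases pos <;> simp [evalCls, evalLit, litOf, h1, sgn] at h ⊢ <;> linarith
    exact ⟨key.le, fun _ => key⟩

theorem evalCls_append (V : Nat → Bool) (c d : Cls) :
    evalCls V (c ++ d) = (evalCls V c || evalCls V d) := by
  simp [evalCls]

section

variable (X : ℕ → Fin 3 → ℝ)

/-- The determinant of four of the points, times the determinant of the reference four. -/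
noncomputable def DD (a b c d : ℕ) : ℝ :=
  det4 (X a) (X b) (X c) (X d) *
    det4 (X (unitVar / 512)) (X (unitVar / 64 % 8)) (X (unitVar / 8 % 8)) (X (unitVar % 8))

noncomputable def VV (n : ℕ) : Bool :=
  decide (0 < DD X (n / 512) (n / 64 % 8) (n / 8 % 8) (n % 8))

theorem VV_code {a b c d : ℕ} (hb : b < 8) (hc : c < 8) (hd : d < 8) :
    VV X (code a b c d) = decide (0 < DD X a b c d) := by
  have h1 : code a b c d / 512 = a := by unfold code; omega
  have h2 : code a b c d / 64 % 8 = b := by unfold code; omega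
  have h3 : code a b c d / 8 % 8 = c := by unfold code; omega
  have h4 : code a b c d % 8 = d := by unfold code; omega
  unfold VV
  rw [h1, h2, h3, h4]

variable {X}

theorem item_true (N : ℕ → Fin 3 → ℝ) (S : ℕ → ℝ)
    (hs : ∀ e < 11, ∀ k < 8, SignSpec (tab e k) (N e ⬝ᵥ X k - S e))
    (hg : ∀ a b c d, a < b → b < c → c < d → d < 8 → DD X a b c d ≠ 0)
    (t : Item) (ht : t.ok = true) : evalCls (VV X) t.cls = true := by
  obtain ⟨q0, q1, q2, q3, q4, e, pos⟩ := t
  simp only [Item.ok, Bool.and_eq_true, decide_eq_true_eq, Bool.not_eq_true'] at ht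
  obtain ⟨⟨⟨⟨⟨⟨⟨⟨⟨⟨⟨h01, h12⟩, h23⟩, h34⟩, h4⟩, he⟩, v0⟩, v1⟩, v2⟩, v3⟩, v4⟩, hnz⟩ := ht
  by_contra hcon
  rw [Bool.not_eq_true] at hcon
  simp only [Item.cls, evalCls_append, Bool.or_eq_false_iff] at hcon
  obtain ⟨c0, c1, c2, c3, c4⟩ := hcon
  have e0 := litOf_false (hg q1 q2 q3 q4 h12 h23 h34 h4)
    (VV_code X (by omega) (by omega) (by omega)) v0 (hs e he q0 (by omega)) true pos c0
  have e1 := litOf_false (hg q0 q2 q3 q4 (by omega) h23 h34 h4)
    (VV_code X (by omega) (by omega) (by omega)) v1 (hs e he q1 (by omega)) false pos c1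
  have e2 := litOf_false (hg q0 q1 q3 q4 h01 (by omega) h34 h4)
    (VV_code X (by omega) (by omega) (by omega)) v2 (hs e he q2 (by omega)) true pos c2
  have e3 := litOf_false (hg q0 q1 q2 q4 h01 h12 (by omega) h4)
    (VV_code X (by omega) (by omega) (by omega)) v3 (hs e he q3 (by omega)) false pos c3
  have e4 := litOf_false (hg q0 q1 q2 q3 h01 h12 h23 (by omega))
    (VV_code X (by omega) (by omega) (by omega)) v4 (hs e he q4 (by omega)) true pos c4
  have hrel := circuit (N e) (S e) (X q0) (X q1) (X q2) (X q3) (X q4)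
  have hsum : sgn pos * (sgn true * DD X q1 q2 q3 q4 * (N e ⬝ᵥ X q0 - S e))
      + sgn pos * (sgn false * DD X q0 q2 q3 q4 * (N e ⬝ᵥ X q1 - S e))
      + sgn pos * (sgn true * DD X q0 q1 q3 q4 * (N e ⬝ᵥ X q2 - S e))
      + sgn pos * (sgn false * DD X q0 q1 q2 q4 * (N e ⬝ᵥ X q3 - S e))
      + sgn pos * (sgn true * DD X q0 q1 q2 q3 * (N e ⬝ᵥ X q4 - S e)) = 0 := by
    have : sgn pos * (sgn true * DD X q1 q2 q3 q4 * (N e ⬝ᵥ X q0 - S e))
      + sgn pos * (sgn false * DD X q0 q2 q3 q4 * (N e ⬝ᵥ X q1 - S e))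
      + sgn pos * (sgn true * DD X q0 q1 q3 q4 * (N e ⬝ᵥ X q2 - S e))
      + sgn pos * (sgn false * DD X q0 q1 q2 q4 * (N e ⬝ᵥ X q3 - S e))
      + sgn pos * (sgn true * DD X q0 q1 q2 q3 * (N e ⬝ᵥ X q4 - S e)) =
      sgn pos * det4 (X (unitVar / 512)) (X (unitVar / 64 % 8)) (X (unitVar / 8 % 8))
        (X (unitVar % 8)) *
      (det4 (X q1) (X q2) (X q3) (X q4) * (N e ⬝ᵥ X q0 - S e)
        - det4 (X q0) (X q2) (X q3) (X q4) * (N e ⬝ᵥ X q1 - S e)
        + det4 (X q0) (X q1) (X q3) (X q4) * (N e ⬝ᵥ X q2 - S e)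
        - det4 (X q0) (X q1) (X q2) (X q4) * (N e ⬝ᵥ X q3 - S e)
        + det4 (X q0) (X q1) (X q2) (X q3) * (N e ⬝ᵥ X q4 - S e)) := by
      have ht : sgn true = 1 := rfl
      have hf : sgn false = -1 := rfl
      rw [ht, hf]
      simp only [DD]
      ring
    rw [this, hrel, mul_zero]
  rcases (by
    by_cases h0 : tab e q0 = 0
    · right
      intro h1
      simp [h0, h1] at hnz
    · left; exact h0 : tab e q0 ≠ 0 ∨ tab e q1 ≠ 0) with h | h
  · have := e0.2 h
    linarith [e1.1, e2.1, e3.1, e4.1]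
  · have := e1.2 h
    linarith [e0.1, e2.1, e3.1, e4.1]

theorem core (N : ℕ → Fin 3 → ℝ) (S : ℕ → ℝ)
    (hs : ∀ e < 11, ∀ k < 8, SignSpec (tab e k) (N e ⬝ᵥ X k - S e))
    (hg : ∀ a b c d, a < b → b < c → c < d → d < 8 →
      det4 (X a) (X b) (X c) (X d) ≠ 0) : False := by
  have hu : det4 (X (unitVar / 512)) (X (unitVar / 64 % 8)) (X (unitVar / 8 % 8))
      (X (unitVar % 8)) ≠ 0 := by
    apply hg <;> decide
  have hg' : ∀ a b c d, a < b → b < c → c < d → d < 8 → DD X a b c d ≠ 0 :=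
    fun a b c d h1 h2 h3 h4 => mul_ne_zero (hg a b c d h1 h2 h3 h4) hu
  refine checkAll_sound (V := VV X) steps origs ?_ check_ok
  intro c hc
  unfold origs at hc
  rcases List.mem_append.1 hc with hc | hc
  · rw [List.mem_map] at hc
    obtain ⟨t, ht, rfl⟩ := hc
    exact item_true N S hs hg' t (List.all_eq_true.1 items_ok t ht)
  · rw [List.mem_singleton] at hc
    subst hc
    have hV : VV X unitVar = true := by
      unfold VV
      rw [decide_eq_true_eq]
      unfold DD
      exact mul_self_pos.2 hu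
    simp [evalCls, evalLit, hV]

end

end TangleSat
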