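import Pool.Agent.Lib_helper45.Tangle.Perm

namespace TangleSat

/-- The ten triples of `Fin 5`. -/
def tr : Fin 10 → Fin 5 × Fin 5 × Fin 5 :=
  ![(0, 1, 2), (0, 1, 3), (0, 1, 4), (0, 2, 3), (0, 2, 4), (0, 3, 4), (1, 2, 3), (1, 2, 4),
    (1, 3, 4), (2, 3, 4)]

section

open Classical in
noncomputable def bits (L : Fin 5 → Fin 5 → Fin 5 → Prop) : Fin 10 → Bool :=
  fun k => decide (L (tr k).1 (tr k).2.1 (tr k).2.2)

variable {L : Fin 5 → Fin 5 → Fin 5 → Prop}

theorem bit_true (k : Nat) (hk : k < 10) (h : (Nat.ofBits (bits L)).testBit k = true) :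
    L (tr ⟨k, hk⟩).1 (tr ⟨k, hk⟩).2.1 (tr ⟨k, hk⟩).2.2 := by
  rw [Nat.testBit_ofBits_lt _ _ hk] at h
  simpa [bits] using h

theorem bit_false (k : Nat) (hk : k < 10) (h : (Nat.ofBits (bits L)).testBit k = false) :
    ¬ L (tr ⟨k, hk⟩).1 (tr ⟨k, hk⟩).2.1 (tr ⟨k, hk⟩).2.2 := by
  rw [Nat.testBit_ofBits_lt _ _ hk] at h
  simpa [bits] using h

theorem T_sound (hcyc : ∀ a b c, L a b c → L b c a)
    (htot : ∀ a b c, a ≠ b → a ≠ c → b ≠ c → L a b c ∨ L a c b)
    (a b c : Fin 5) (hab : a ≠ b) (hac : a ≠ c) (hbc : b ≠ c)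
    (h : T (Nat.ofBits (bits L)) a b c = true) : L a b c := by
  have key : ∀ (k : Nat) (hk : k < 10) (par : Bool),
      T (Nat.ofBits (bits L)) a b c = ((Nat.ofBits (bits L)).testBit k != par) →
      (par = false → (tr ⟨k, hk⟩ = (a, b, c) ∨ tr ⟨k, hk⟩ = (b, c, a) ∨ tr ⟨k, hk⟩ = (c, a, b))) →
      (par = true → (tr ⟨k, hk⟩ = (a, c, b) ∨ tr ⟨k, hk⟩ = (c, b, a) ∨ tr ⟨k, hk⟩ = (b, a, c))) →
      L a b c := by
    intro k hk par e h0 h1
    rw [e] at h
    cases par with
    | false =>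
      have hb : (Nat.ofBits (bits L)).testBit k = true := by
        cases hh : (Nat.ofBits (bits L)).testBit k <;> simp [hh] at h ⊢
      have := bit_true k hk hb
      rcases h0 rfl with h' | h' | h' <;> rw [h'] at this
      · exact this
      · exact hcyc _ _ _ (hcyc _ _ _ this)
      · exact hcyc _ _ _ this
    | true =>
      have hb : (Nat.ofBits (bits L)).testBit k = false := by
        cases hh : (Nat.ofBits (bits L)).testBit k <;> simp [hh] at h ⊢
      have := bit_false k hk hb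
      rcases h1 rfl with h' | h' | h' <;> rw [h'] at this
      · rcases htot a b c hab hac hbc with h2 | h2
        · exact h2
        · exact absurd h2 this
      · rcases htot a b c hab hac hbc with h2 | h2
        · exact h2
        · exact absurd (hcyc _ _ _ h2) this
      · rcases htot a b c hab hac hbc with h2 | h2
        · exact h2
        · exact absurd (hcyc _ _ _ (hcyc _ _ _ h2)) this
  clear h
  fin_cases a <;> fin_cases b <;> first | exact absurd rfl hab | skip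
  all_goals
    fin_cases c <;>
    first
    | exact absurd rfl hac
    | exact absurd rfl hbc
    | exact key 0 (by norm_num) false rfl (fun _ => by decide) (fun h => by simp at h)
    | exact key 0 (by norm_num) true rfl (fun h => by simp at h) (fun _ => by decide)
    | exact key 1 (by norm_num) false rfl (fun _ => by decide) (fun h => by simp at h)
    | exact key 1 (by norm_num) true rfl (fun h => by simp at h) (fun _ => by decide)
    | exact key 2 (by norm_num) false rfl (fun _ => by decide) (fun h => by simp at h)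
    | exact key 2 (by norm_num) true rfl (fun h => by simp at h) (fun _ => by decide)
    | exact key 3 (by norm_num) false rfl (fun _ => by decide) (fun h => by simp at h)
    | exact key 3 (by norm_num) true rfl (fun h => by simp at h) (fun _ => by decide)
    | exact key 4 (by norm_num) false rfl (fun _ => by decide) (fun h => by simp at h)
    | exact key 4 (by norm_num) true rfl (fun h => by simp at h) (fun _ => by decide)
    | exact key 5 (by norm_num) false rfl (fun _ => by decide) (fun h => by simp at h)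
    | exact key 5 (by norm_num) true rfl (fun h => by simp at h) (fun _ => by decide)
    | exact key 6 (by norm_num) false rfl (fun _ => by decide) (fun h => by simp at h)
    | exact key 6 (by norm_num) true rfl (fun h => by simp at h) (fun _ => by decide)
    | exact key 7 (by norm_num) false rfl (fun _ => by decide) (fun h => by simp at h)
    | exact key 7 (by norm_num) true rfl (fun h => by simp at h) (fun _ => by decide)
    | exact key 8 (by norm_num) false rfl (fun _ => by decide) (fun h => by simp at h)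
    | exact key 8 (by norm_num) true rfl (fun h => by simp at h) (fun _ => by decide)
    | exact key 9 (by norm_num) false rfl (fun _ => by decide) (fun h => by simp at h)
    | exact key 9 (by norm_num) true rfl (fun h => by simp at h) (fun _ => by decide)

/-- validity of a permutation code -/
def permOK (p : Nat × Nat × Nat × Nat × Nat) : Bool :=
  decide (p.1 < 5) && decide (p.2.1 < 5) && decide (p.2.2.1 < 5) && decide (p.2.2.2.1 < 5)
    && decide (p.2.2.2.2 < 5)
    && decide ([p.1, p.2.1, p.2.2.1, p.2.2.2.1, p.2.2.2.2].Nodup)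

theorem perms_ok : perms.all permOK = true := by decide +kernel

def quadOK (p : Nat × Nat × Nat × Nat) : Bool :=
  decide (p.1 < 5) && decide (p.2.1 < 5) && decide (p.2.2.1 < 5) && decide (p.2.2.2 < 5)
    && decide ([p.1, p.2.1, p.2.2.1, p.2.2.2].Nodup)

theorem quads_ok : quads.all quadOK = true := by decide +kernel

theorem exists_perm (hcyc : ∀ a b c, L a b c → L b c a)
    (htot : ∀ a b c, a ≠ b → a ≠ c → b ≠ c → L a b c ∨ L a c b)
    (hcoc : ∀ a b c d, a ≠ b → a ≠ c → a ≠ d → b ≠ c → b ≠ d → c ≠ d →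
      ¬ (L a b c ∧ L a c d ∧ L a d b ∧ L b d c)) :
    ∃ π : Fin 5 → Fin 5, Function.Injective π ∧ L (π 1) (π 4) (π 2) ∧ L (π 1) (π 3) (π 2) ∧
      L (π 0) (π 3) (π 4) ∧ L (π 0) (π 4) (π 2) ∧ L (π 0) (π 1) (π 4) ∧ L (π 0) (π 1) (π 2) := by
  have hm : Nat.ofBits (bits L) < 1024 := by
    have := Nat.ofBits_lt_two_pow (bits L)
    simpa using this
  have h1 := List.all_eq_true.1 pattern_exists _ (List.mem_range.2 hm)
  have hc : coc (Nat.ofBits (bits L)) = true := by
    unfold coc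
    rw [List.all_eq_true]
    rintro ⟨a, b, c, d⟩ hq
    have hok := List.all_eq_true.1 quads_ok _ hq
    simp only [quadOK, Bool.and_eq_true, decide_eq_true_eq, List.nodup_cons, List.mem_cons,
      List.not_mem_nil, or_false, not_or, not_false_eq_true, List.nodup_nil, and_true] at hok
    obtain ⟨⟨⟨⟨ha, hb⟩, hc⟩, hd⟩, ⟨hab, hac, had⟩, ⟨hbc, hbd⟩, hcd⟩ := hok
    rw [Bool.not_eq_true']
    by_contra hcon
    rw [Bool.not_eq_false] at hcon
    simp only [Bool.and_eq_true] at hcon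
    have ne : ∀ {u v : Nat} (hu : u < 5) (hv : v < 5), u ≠ v → (⟨u, hu⟩ : Fin 5) ≠ ⟨v, hv⟩ := by
      intro u v hu hv h h'
      exact h (Fin.mk.inj_iff.1 h')
    refine hcoc ⟨a, ha⟩ ⟨b, hb⟩ ⟨c, hc⟩ ⟨d, hd⟩ (ne _ _ hab) (ne _ _ hac) (ne _ _ had) (ne _ _ hbc)
      (ne _ _ hbd) (ne _ _ hcd) ⟨?_, ?_, ?_, ?_⟩
    · exact T_sound hcyc htot _ _ _ (ne _ _ hab) (ne _ _ hac) (ne _ _ hbc) hcon.1
    · exact T_sound hcyc htot _ _ _ (ne _ _ hac) (ne _ _ had) (ne _ _ hcd) hcon.2.1
    · exact T_sound hcyc htot _ _ _ (ne _ _ had) (ne _ _ hab) (ne _ _ (Ne.symm hbd)) hcon.2.2.1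
    · exact T_sound hcyc htot _ _ _ (ne _ _ hbd) (ne _ _ hbc) (ne _ _ (Ne.symm hcd)) hcon.2.2.2
  rw [hc, Bool.not_true, Bool.false_or, List.any_eq_true] at h1
  obtain ⟨⟨p0, p1, p2, p3, p4⟩, hp, hpat⟩ := h1
  have hok := List.all_eq_true.1 perms_ok _ hp
  simp only [permOK, Bool.and_eq_true, decide_eq_true_eq, List.nodup_cons, List.mem_cons,
    List.not_mem_nil, or_false, not_or, not_false_eq_true, List.nodup_nil, and_true] at hok
  obtain ⟨⟨⟨⟨⟨l0, l1⟩, l2⟩, l3⟩, l4⟩, ⟨n01, n02, n03, n04⟩, ⟨n12, n13, n14⟩, ⟨n23, n24⟩, n34⟩ :=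
    hok
  have ne : ∀ {u v : Nat} (hu : u < 5) (hv : v < 5), u ≠ v → (⟨u, hu⟩ : Fin 5) ≠ ⟨v, hv⟩ := by
    intro u v hu hv h h'
    exact h (Fin.mk.inj_iff.1 h')
  simp only [pattern, Bool.and_eq_true] at hpat
  obtain ⟨t1, t2, t3, t4, t5, t6⟩ := hpat
  refine ⟨![⟨p0, l0⟩, ⟨p1, l1⟩, ⟨p2, l2⟩, ⟨p3, l3⟩, ⟨p4, l4⟩], ?_, ?_, ?_, ?_, ?_, ?_, ?_⟩
  · intro i j hij
    fin_cases i <;> fin_cases j <;>
      first
      | rfl
      | (exfalso
         simp only [Fin.zero_eta, Fin.mk_one, Fin.reduceFinMk, Matrix.cons_val_zero,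
           Matrix.cons_val_one, Matrix.cons_val, Fin.mk.injEq] at hij
         omega)
  · exact T_sound hcyc htot ⟨p1, l1⟩ ⟨p4, l4⟩ ⟨p2, l2⟩ (ne _ _ n14) (ne _ _ n12)
      (ne _ _ (Ne.symm n24)) t1
  · exact T_sound hcyc htot ⟨p1, l1⟩ ⟨p3, l3⟩ ⟨p2, l2⟩ (ne _ _ n13) (ne _ _ n12)
      (ne _ _ (Ne.symm n23)) t2
  · exact T_sound hcyc htot ⟨p0, l0⟩ ⟨p3, l3⟩ ⟨p4, l4⟩ (ne _ _ n03) (ne _ _ n04) (ne _ _ n34) t3
  · exact T_sound hcyc htot ⟨p0, l0⟩ ⟨p4, l4⟩ ⟨p2, l2⟩ (ne _ _ n04) (ne _ _ n02)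
      (ne _ _ (Ne.symm n24)) t4
  · exact T_sound hcyc htot ⟨p0, l0⟩ ⟨p1, l1⟩ ⟨p4, l4⟩ (ne _ _ n01) (ne _ _ n04) (ne _ _ n14) t5
  · exact T_sound hcyc htot ⟨p0, l0⟩ ⟨p1, l1⟩ ⟨p2, l2⟩ (ne _ _ n01) (ne _ _ n02) (ne _ _ n12) t6

end

end TangleSat
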