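import Pool.Agent.Lib_helper45.Tangle.Core
import Pool.Agent.Lib_helper45.Tangle.PermUse

namespace TangleSat

open Finset Filter Topology

/-- Value at `y` of the affine functional with normal `n i j` vanishing at `x i j`. -/
def fv (n x : Fin 5 → Fin 5 → Fin 3 → ℝ) (i j : Fin 5) (y : Fin 3 → ℝ) : ℝ :=
  n i j ⬝ᵥ y - n i j ⬝ᵥ x i j

structure Cfg (n x : Fin 5 → Fin 5 → Fin 3 → ℝ) (lam : Fin 5 → Fin 5 → ℝ) : Prop where
  hn : ∀ i j, n j i = - n i j
  hx : ∀ i j, x j i = x i j
  hlt : ∀ i j k, i ≠ j → i ≠ k → j ≠ k → n i j ⬝ᵥ x i k < n i j ⬝ᵥ x i j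
  hl : ∀ i j, j ≠ i → 0 < lam i j
  hsum : ∀ i, ∑ j ∈ univ.erase i, lam i j • n i j = 0

section

variable {n x : Fin 5 → Fin 5 → Fin 3 → ℝ} {lam : Fin 5 → Fin 5 → ℝ} (h : Cfg n x lam)

include h

omit h in
theorem fv_self (i j : Fin 5) : fv n x i j (x i j) = 0 := by simp [fv]

theorem fv_anti (i j : Fin 5) (y : Fin 3 → ℝ) : fv n x j i y = - fv n x i j y := by
  unfold fv
  rw [h.hn i j, h.hx i j, neg_dotProduct, neg_dotProduct]
  ring

theorem fv_neg {i j k : Fin 5} (hij : i ≠ j) (hik : i ≠ k) (hjk : j ≠ k) :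
    fv n x i j (x i k) < 0 := by
  unfold fv
  linarith [h.hlt i j k hij hik hjk]

theorem fv_neg' {i j k : Fin 5} (hij : i ≠ j) (hik : i ≠ k) (hjk : j ≠ k) :
    fv n x i j (x k i) < 0 := by
  rw [h.hx i k]
  exact fv_neg h hij hik hjk

theorem fv_pos {i j k : Fin 5} (hij : i ≠ j) (hik : i ≠ k) (hjk : j ≠ k) :
    0 < fv n x i j (x j k) := by
  have := fv_neg h (Ne.symm hij) hjk hik
  rw [fv_anti h i j] at this
  linarith

theorem fv_pos' {i j k : Fin 5} (hij : i ≠ j) (hik : i ≠ k) (hjk : j ≠ k) :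
    0 < fv n x i j (x k j) := by
  rw [h.hx j k]
  exact fv_pos h hij hik hjk

theorem sum_neg (p k : Fin 5) (hpk : p ≠ k) (y : Fin 3 → ℝ) :
    ∑ j ∈ univ.erase p, lam p j * fv n x p j y < 0 := by
  have e : ∀ z : Fin 3 → ℝ, ∑ j ∈ univ.erase p, lam p j * fv n x p j z =
      - ∑ j ∈ univ.erase p, lam p j * (n p j ⬝ᵥ x p j) := by
    intro z
    have h1 : ∑ j ∈ univ.erase p, lam p j * (n p j ⬝ᵥ z) = 0 := by
      have h2 := congrArg (fun v : Fin 3 → ℝ => v ⬝ᵥ z) (h.hsum p)
      simp only [sum_dotProduct, smul_dotProduct, zero_dotProduct, smul_eq_mul] at h2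
      exact h2
    unfold fv
    simp only [mul_sub, Finset.sum_sub_distrib]
    rw [h1]; ring
  rw [e y, ← e (x p k)]
  have hle : ∀ j ∈ univ.erase p, lam p j * fv n x p j (x p k) ≤ 0 := by
    intro j hj
    have hjp : j ≠ p := (Finset.mem_erase.1 hj).1
    by_cases hjk : j = k
    · subst hjk; rw [fv_self]; simp
    · exact (mul_neg_of_pos_of_neg (h.hl p j hjp) (fv_neg h (Ne.symm hjp) hpk hjk)).le
  -- a third index
  obtain ⟨q, hqp, hqk⟩ : ∃ q : Fin 5, q ≠ p ∧ q ≠ k := by
    revert hpk; clear hle e h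
    revert p k; decide
  refine Finset.sum_neg' hle ⟨q, Finset.mem_erase.2 ⟨hqp, Finset.mem_univ _⟩, ?_⟩
  exact mul_neg_of_pos_of_neg (h.hl p q hqp) (fv_neg h (Ne.symm hqp) hpk hqk)

omit h in
theorem erase_eq {p q r k l : Fin 5} (hpq : p ≠ q) (hpr : p ≠ r) (hpk : p ≠ k) (hpl : p ≠ l)
    (hqr : q ≠ r) (hqk : q ≠ k) (hql : q ≠ l) (hrk : r ≠ k) (hrl : r ≠ l) (hkl : k ≠ l) :
    (univ.erase p : Finset (Fin 5)) = {q, r, k, l} := by
  symm
  apply Finset.eq_of_subset_of_card_le
  · intro z hz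
    simp only [Finset.mem_insert, Finset.mem_singleton] at hz
    rw [Finset.mem_erase]
    rcases hz with rfl | rfl | rfl | rfl <;> exact ⟨Ne.symm (by assumption), Finset.mem_univ _⟩
  · rw [Finset.card_erase_of_mem (Finset.mem_univ _)]
    rw [Finset.card_insert_of_notMem, Finset.card_insert_of_notMem,
      Finset.card_insert_of_notMem, Finset.card_singleton]
    · simp
    · simpa using hkl
    · simp [hrk, hrl]
    · simp [hqr, hqk, hql]

theorem two_neg {p q r k l : Fin 5} (hpq : p ≠ q) (hpr : p ≠ r) (hpk : p ≠ k) (hpl : p ≠ l)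
    (hqr : q ≠ r) (hqk : q ≠ k) (hql : q ≠ l) (hrk : r ≠ k) (hrl : r ≠ l) (hkl : k ≠ l) :
    lam p q * fv n x p q (x k l) + lam p r * fv n x p r (x k l) < 0 := by
  have h1 := sum_neg h p q hpq (x k l)
  rw [erase_eq hpq hpr hpk hpl hqr hqk hql hrk hrl hkl] at h1
  rw [Finset.sum_insert, Finset.sum_insert, Finset.sum_insert, Finset.sum_singleton] at h1
  · have h2 := mul_pos (h.hl p k (Ne.symm hpk)) (fv_pos h hpk hpl hkl)
    have h3 := mul_pos (h.hl p l (Ne.symm hpl)) (fv_pos' h hpl hpk (Ne.symm hkl))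
    linarith
  · simpa using hkl
  · simp [hrk, hrl]
  · simp [hqr, hqk, hql]

omit h in
/-- orientation of a triple -/
def Lc (lam : Fin 5 → Fin 5 → ℝ) (p q r : Fin 5) : Prop :=
  lam p q * lam q r * lam r p < lam q p * lam r q * lam p r

theorem dich {p q r k l : Fin 5} (hpq : p ≠ q) (hpr : p ≠ r) (hpk : p ≠ k) (hpl : p ≠ l)
    (hqr : q ≠ r) (hqk : q ≠ k) (hql : q ≠ l) (hrk : r ≠ k) (hrl : r ≠ l) (hkl : k ≠ l) :
    (0 < fv n x p q (x k l) ∧ 0 < fv n x q r (x k l) ∧ 0 < fv n x r p (x k l) ∧ Lc lam p q r) ∨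
    (fv n x p q (x k l) < 0 ∧ fv n x q r (x k l) < 0 ∧ fv n x r p (x k l) < 0 ∧
      Lc lam p r q) := by
  have h1 := two_neg h hpq hpr hpk hpl hqr hqk hql hrk hrl hkl
  have h2 := two_neg h hqr (Ne.symm hpq) hqk hql (Ne.symm hpr) hrk hrl hpk hpl hkl
  have h3 := two_neg h (Ne.symm hpr) (Ne.symm hqr) hrk hrl hpq hpk hpl hqk hql hkl
  rw [fv_anti h r p] at h1
  rw [fv_anti h p q] at h2
  rw [fv_anti h q r] at h3
  set A := fv n x p q (x k l)
  set B := fv n x q r (x k l)
  set C := fv n x r p (x k l)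
  have lpq := h.hl p q (Ne.symm hpq)
  have lqp := h.hl q p hpq
  have lpr := h.hl p r (Ne.symm hpr)
  have lrp := h.hl r p hpr
  have lqr := h.hl q r (Ne.symm hqr)
  have lrq := h.hl r q hqr
  have k1 : lam p q * A < lam p r * C := by linarith
  have k2 : lam q r * B < lam q p * A := by linarith
  have k3 : lam r p * C < lam r q * B := by linarith
  rcases lt_or_ge 0 A with hA | hA
  · left
    have hC : 0 < C := by
      have : 0 < lam p r * C := lt_trans (mul_pos lpq hA) k1
      exact (mul_pos_iff_of_pos_left lpr).1 this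
    have hB : 0 < B := by
      have : 0 < lam r q * B := lt_trans (mul_pos lrp hC) k3
      exact (mul_pos_iff_of_pos_left lrq).1 this
    refine ⟨hA, hB, hC, ?_⟩
    have m1 : (lam p q * A) * (lam q r * B) < (lam p r * C) * (lam q p * A) :=
      mul_lt_mul'' k1 k2 (mul_pos lpq hA).le (mul_pos lqr hB).le
    have m2 : (lam p q * A) * (lam q r * B) * (lam r p * C) <
        (lam p r * C) * (lam q p * A) * (lam r q * B) :=
      mul_lt_mul'' m1 k3 (mul_pos (mul_pos lpq hA) (mul_pos lqr hB)).le (mul_pos lrp hC).le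
    have hABC : 0 < A * B * C := mul_pos (mul_pos hA hB) hC
    unfold Lc
    have : (lam p q * lam q r * lam r p) * (A * B * C) <
        (lam q p * lam r q * lam p r) * (A * B * C) := by
      calc _ = (lam p q * A) * (lam q r * B) * (lam r p * C) := by ring
        _ < _ := m2
        _ = _ := by ring
    exact lt_of_mul_lt_mul_right this hABC.le
  · right
    have hB : B < 0 := by
      have : lam q r * B < 0 := lt_of_lt_of_le k2 (mul_nonpos_of_nonneg_of_nonpos lqp.le hA)
      exact (mul_neg_iff.1 this).resolve_right (fun hh => absurd hh.1 (not_lt.2 lqr.le)) |>.2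
    have hC : C < 0 := by
      have : lam r p * C < 0 := lt_trans k3 (mul_neg_of_pos_of_neg lrq hB)
      exact (mul_neg_iff.1 this).resolve_right (fun hh => absurd hh.1 (not_lt.2 lrp.le)) |>.2
    have hA' : A < 0 := by
      have : lam p q * A < 0 := lt_trans k1 (mul_neg_of_pos_of_neg lpr hC)
      exact (mul_neg_iff.1 this).resolve_right (fun hh => absurd hh.1 (not_lt.2 lpq.le)) |>.2
    refine ⟨hA', hB, hC, ?_⟩
    have nA : 0 < -A := by linarith
    have nB : 0 < -B := by linarith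
    have nC : 0 < -C := by linarith
    have k1' : lam p r * (-C) < lam p q * (-A) := by linarith
    have k2' : lam q p * (-A) < lam q r * (-B) := by linarith
    have k3' : lam r q * (-B) < lam r p * (-C) := by linarith
    have m1 : (lam p r * (-C)) * (lam q p * (-A)) < (lam p q * (-A)) * (lam q r * (-B)) :=
      mul_lt_mul'' k1' k2' (mul_pos lpr nC).le (mul_pos lqp nA).le
    have m2 : (lam p r * (-C)) * (lam q p * (-A)) * (lam r q * (-B)) <
        (lam p q * (-A)) * (lam q r * (-B)) * (lam r p * (-C)) :=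
      mul_lt_mul'' m1 k3' (mul_pos (mul_pos lpr nC) (mul_pos lqp nA)).le (mul_pos lrq nB).le
    have hABC : 0 < (-A) * (-B) * (-C) := mul_pos (mul_pos nA nB) nC
    unfold Lc
    have : (lam p r * lam r q * lam q p) * ((-A) * (-B) * (-C)) <
        (lam r p * lam q r * lam p q) * ((-A) * (-B) * (-C)) := by
      calc _ = (lam p r * (-C)) * (lam q p * (-A)) * (lam r q * (-B)) := by ring
        _ < _ := m2
        _ = _ := by ring
    exact lt_of_mul_lt_mul_right this hABC.le

theorem tri_pos {p q r k l : Fin 5} (hL : Lc lam p q r)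
    (hpq : p ≠ q) (hpr : p ≠ r) (hpk : p ≠ k) (hpl : p ≠ l)
    (hqr : q ≠ r) (hqk : q ≠ k) (hql : q ≠ l) (hrk : r ≠ k) (hrl : r ≠ l) (hkl : k ≠ l) :
    0 < fv n x p q (x k l) ∧ 0 < fv n x q r (x k l) ∧ 0 < fv n x r p (x k l) ∧
    fv n x q p (x k l) < 0 ∧ fv n x r q (x k l) < 0 ∧ fv n x p r (x k l) < 0 := by
  have key : 0 < fv n x p q (x k l) ∧ 0 < fv n x q r (x k l) ∧ 0 < fv n x r p (x k l) := by
    rcases dich h hpq hpr hpk hpl hqr hqk hql hrk hrl hkl with h1 | h1
    · exact ⟨h1.1, h1.2.1, h1.2.2.1⟩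
    · exfalso
      have h2 := h1.2.2.2
      unfold Lc at h2 hL
      nlinarith
  rw [fv_anti h p q, fv_anti h q r, fv_anti h r p]
  exact ⟨key.1, key.2.1, key.2.2, by linarith, by linarith, by linarith⟩

end

/-! ### Labelled data for the certificate -/

def r1 (e : ℕ) : Fin 5 := ([0, 0, 0, 0, 0, 1, 1, 1, 2, 2, 3] : List (Fin 5)).getD e 0
def r2 (e : ℕ) : Fin 5 := ([0, 1, 2, 3, 4, 2, 3, 4, 3, 4, 4] : List (Fin 5)).getD e 0
def p1 (k : ℕ) : Fin 5 := ([0, 0, 1, 1, 1, 2, 2, 3] : List (Fin 5)).getD k 0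
def p2 (k : ℕ) : Fin 5 := ([3, 4, 2, 3, 4, 3, 4, 4] : List (Fin 5)).getD k 0

def NN (n : Fin 5 → Fin 5 → Fin 3 → ℝ) (π : Fin 5 → Fin 5) (e : ℕ) : Fin 3 → ℝ :=
  if e = 0 then 0 else n (π (r1 e)) (π (r2 e))

noncomputable def SS (n x : Fin 5 → Fin 5 → Fin 3 → ℝ) (π : Fin 5 → Fin 5) (e : ℕ) : ℝ :=
  if e = 0 then -1 else n (π (r1 e)) (π (r2 e)) ⬝ᵥ x (π (r1 e)) (π (r2 e))

def XX (x : Fin 5 → Fin 5 → Fin 3 → ℝ) (π : Fin 5 → Fin 5) (k : ℕ) : Fin 3 → ℝ :=
  x (π (p1 k)) (π (p2 k))

theorem sUnk (r : ℝ) : SignSpec 2 r :=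
  ⟨fun h => absurd h (by decide), fun h => absurd h (by decide), fun h => absurd h (by decide)⟩

theorem sZero {r : ℝ} (h : r = 0) : SignSpec 0 r :=
  ⟨fun _ => h, fun h => absurd h (by decide), fun h => absurd h (by decide)⟩

theorem sPos {r : ℝ} (h : 0 < r) : SignSpec 1 r :=
  ⟨fun h => absurd h (by decide), fun _ => h, fun h => absurd h (by decide)⟩

theorem sNeg {r : ℝ} (h : r < 0) : SignSpec (-1) r :=
  ⟨fun h => absurd h (by decide), fun h => absurd h (by decide), fun _ => h⟩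

section

variable {n x : Fin 5 → Fin 5 → Fin 3 → ℝ} {lam : Fin 5 → Fin 5 → ℝ} (h : Cfg n x lam)
  {π : Fin 5 → Fin 5} (hπ : Function.Injective π)

theorem val_eq (e k : ℕ) (he : e ≠ 0) :
    NN n π e ⬝ᵥ XX x π k - SS n x π e = fv n x (π (r1 e)) (π (r2 e)) (x (π (p1 k)) (π (p2 k))) := by
  simp [NN, SS, XX, fv, he]

theorem val_zero (k : ℕ) : NN n π 0 ⬝ᵥ XX x π k - SS n x π 0 = 1 := by
  simp [NN, SS]

include h hπ

theorem table (h1 : Lc lam (π 1) (π 4) (π 2)) (h2 : Lc lam (π 1) (π 3) (π 2))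
    (h3 : Lc lam (π 0) (π 3) (π 4)) (h4 : Lc lam (π 0) (π 4) (π 2))
    (h5 : Lc lam (π 0) (π 1) (π 4)) (h6 : Lc lam (π 0) (π 1) (π 2)) :
    ∀ e < 11, ∀ k < 8, SignSpec (tab e k) (NN n π e ⬝ᵥ XX x π k - SS n x π e) := by
  have ne : ∀ {i j : Fin 5}, i ≠ j → π i ≠ π j := fun hij => hπ.ne hij
  have t1 := tri_pos h (k := π 0) (l := π 3) h1 (ne (by decide)) (ne (by decide)) (ne (by decide))
    (ne (by decide)) (ne (by decide)) (ne (by decide)) (ne (by decide)) (ne (by decide))
    (ne (by decide)) (ne (by decide))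
  have t2 := tri_pos h (k := π 0) (l := π 4) h2 (ne (by decide)) (ne (by decide)) (ne (by decide))
    (ne (by decide)) (ne (by decide)) (ne (by decide)) (ne (by decide)) (ne (by decide))
    (ne (by decide)) (ne (by decide))
  have t3 := tri_pos h (k := π 1) (l := π 2) h3 (ne (by decide)) (ne (by decide)) (ne (by decide))
    (ne (by decide)) (ne (by decide)) (ne (by decide)) (ne (by decide)) (ne (by decide))
    (ne (by decide)) (ne (by decide))
  have t4 := tri_pos h (k := π 1) (l := π 3) h4 (ne (by decide)) (ne (by decide)) (ne (by decide))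
    (ne (by decide)) (ne (by decide)) (ne (by decide)) (ne (by decide)) (ne (by decide))
    (ne (by decide)) (ne (by decide))
  have t5 := tri_pos h (k := π 2) (l := π 3) h5 (ne (by decide)) (ne (by decide)) (ne (by decide))
    (ne (by decide)) (ne (by decide)) (ne (by decide)) (ne (by decide)) (ne (by decide))
    (ne (by decide)) (ne (by decide))
  have t6 := tri_pos h (k := π 3) (l := π 4) h6 (ne (by decide)) (ne (by decide)) (ne (by decide))
    (ne (by decide)) (ne (by decide)) (ne (by decide)) (ne (by decide)) (ne (by decide))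
    (ne (by decide)) (ne (by decide))
  intro e he k hk
  rcases Nat.eq_zero_or_pos e with rfl | he0
  · rw [val_zero]
    interval_cases k <;> exact sPos one_pos
  · rw [val_eq e k (by omega)]
    interval_cases e <;> interval_cases k
    · exact sNeg (fv_neg h (ne (by decide)) (ne (by decide)) (ne (by decide)))
    · exact sNeg (fv_neg h (ne (by decide)) (ne (by decide)) (ne (by decide)))
    · exact sPos (fv_pos h (ne (by decide)) (ne (by decide)) (ne (by decide)))
    · exact sPos (fv_pos h (ne (by decide)) (ne (by decide)) (ne (by decide)))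
    · exact sPos (fv_pos h (ne (by decide)) (ne (by decide)) (ne (by decide)))
    · exact sPos t5.1
    · exact sUnk _
    · exact sPos t6.1
    · exact sNeg (fv_neg h (ne (by decide)) (ne (by decide)) (ne (by decide)))
    · exact sNeg (fv_neg h (ne (by decide)) (ne (by decide)) (ne (by decide)))
    · exact sPos (fv_pos' h (ne (by decide)) (ne (by decide)) (ne (by decide)))
    · exact sNeg t4.2.2.2.2.2
    · exact sUnk _
    · exact sPos (fv_pos h (ne (by decide)) (ne (by decide)) (ne (by decide)))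
    · exact sPos (fv_pos h (ne (by decide)) (ne (by decide)) (ne (by decide)))
    · exact sNeg t6.2.2.2.2.2
    · exact sZero (fv_self _ _)
    · exact sNeg (fv_neg h (ne (by decide)) (ne (by decide)) (ne (by decide)))
    · exact sPos t3.1
    · exact sPos (fv_pos' h (ne (by decide)) (ne (by decide)) (ne (by decide)))
    · exact sUnk _
    · exact sPos (fv_pos' h (ne (by decide)) (ne (by decide)) (ne (by decide)))
    · exact sUnk _
    · exact sPos (fv_pos h (ne (by decide)) (ne (by decide)) (ne (by decide)))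
    · exact sNeg (fv_neg h (ne (by decide)) (ne (by decide)) (ne (by decide)))
    · exact sZero (fv_self _ _)
    · exact sNeg t3.2.2.2.2.2
    · exact sPos t4.1
    · exact sPos (fv_pos' h (ne (by decide)) (ne (by decide)) (ne (by decide)))
    · exact sNeg t5.2.2.2.2.2
    · exact sPos (fv_pos' h (ne (by decide)) (ne (by decide)) (ne (by decide)))
    · exact sPos (fv_pos' h (ne (by decide)) (ne (by decide)) (ne (by decide)))
    · exact sNeg t1.2.2.2.2.2
    · exact sNeg t2.2.2.2.2.2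
    · exact sZero (fv_self _ _)
    · exact sNeg (fv_neg h (ne (by decide)) (ne (by decide)) (ne (by decide)))
    · exact sNeg (fv_neg h (ne (by decide)) (ne (by decide)) (ne (by decide)))
    · exact sPos (fv_pos h (ne (by decide)) (ne (by decide)) (ne (by decide)))
    · exact sPos (fv_pos h (ne (by decide)) (ne (by decide)) (ne (by decide)))
    · exact sPos t6.2.1
    · exact sPos (fv_pos' h (ne (by decide)) (ne (by decide)) (ne (by decide)))
    · exact sPos t2.1
    · exact sNeg (fv_neg h (ne (by decide)) (ne (by decide)) (ne (by decide)))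
    · exact sZero (fv_self _ _)
    · exact sNeg (fv_neg h (ne (by decide)) (ne (by decide)) (ne (by decide)))
    · exact sPos (fv_pos' h (ne (by decide)) (ne (by decide)) (ne (by decide)))
    · exact sUnk _
    · exact sPos (fv_pos h (ne (by decide)) (ne (by decide)) (ne (by decide)))
    · exact sPos t1.1
    · exact sPos (fv_pos' h (ne (by decide)) (ne (by decide)) (ne (by decide)))
    · exact sNeg (fv_neg h (ne (by decide)) (ne (by decide)) (ne (by decide)))
    · exact sNeg (fv_neg h (ne (by decide)) (ne (by decide)) (ne (by decide)))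
    · exact sZero (fv_self _ _)
    · exact sPos t5.2.1
    · exact sPos (fv_pos' h (ne (by decide)) (ne (by decide)) (ne (by decide)))
    · exact sPos (fv_pos' h (ne (by decide)) (ne (by decide)) (ne (by decide)))
    · exact sPos (fv_pos' h (ne (by decide)) (ne (by decide)) (ne (by decide)))
    · exact sNeg t2.2.2.2.2.1
    · exact sNeg (fv_neg' h (ne (by decide)) (ne (by decide)) (ne (by decide)))
    · exact sPos (fv_pos' h (ne (by decide)) (ne (by decide)) (ne (by decide)))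
    · exact sUnk _
    · exact sZero (fv_self _ _)
    · exact sNeg (fv_neg h (ne (by decide)) (ne (by decide)) (ne (by decide)))
    · exact sPos (fv_pos h (ne (by decide)) (ne (by decide)) (ne (by decide)))
    · exact sNeg t1.2.2.2.2.1
    · exact sPos (fv_pos' h (ne (by decide)) (ne (by decide)) (ne (by decide)))
    · exact sNeg (fv_neg' h (ne (by decide)) (ne (by decide)) (ne (by decide)))
    · exact sNeg t4.2.2.2.2.1
    · exact sPos (fv_pos' h (ne (by decide)) (ne (by decide)) (ne (by decide)))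
    · exact sNeg (fv_neg h (ne (by decide)) (ne (by decide)) (ne (by decide)))
    · exact sZero (fv_self _ _)
    · exact sPos (fv_pos' h (ne (by decide)) (ne (by decide)) (ne (by decide)))
    · exact sNeg (fv_neg' h (ne (by decide)) (ne (by decide)) (ne (by decide)))
    · exact sPos (fv_pos' h (ne (by decide)) (ne (by decide)) (ne (by decide)))
    · exact sPos t3.2.1
    · exact sNeg (fv_neg' h (ne (by decide)) (ne (by decide)) (ne (by decide)))
    · exact sPos (fv_pos' h (ne (by decide)) (ne (by decide)) (ne (by decide)))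
    · exact sNeg (fv_neg' h (ne (by decide)) (ne (by decide)) (ne (by decide)))
    · exact sPos (fv_pos' h (ne (by decide)) (ne (by decide)) (ne (by decide)))
    · exact sZero (fv_self _ _)

end

/-! ### Perturbation to general position -/

/-- code of an unordered pair -/
def kap (i j : Fin 5) : ℕ := min i.val j.val * 5 + max i.val j.val

theorem kap_symm (i j : Fin 5) : kap j i = kap i j := by
  unfold kap; rw [min_comm, max_comm]

/-- the moved points -/
def xt (x : Fin 5 → Fin 5 → Fin 3 → ℝ) (t : ℝ) (i j : Fin 5) : Fin 3 → ℝ :=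
  mv t (x i j) (curve (kap i j))

theorem perturb (n x : Fin 5 → Fin 5 → Fin 3 → ℝ) 
    (hlt : ∀ i j k, i ≠ j → i ≠ k → j ≠ k → n i j ⬝ᵥ x i k < n i j ⬝ᵥ x i j) :
    ∃ t : ℝ, (∀ i j k, i ≠ j → i ≠ k → j ≠ k → n i j ⬝ᵥ xt x t i k < n i j ⬝ᵥ xt x t i j) ∧
      ∀ a a' b b' c c' d d' : Fin 5, kap a a' ≠ kap b b' → kap a a' ≠ kap c c' →
        kap a a' ≠ kap d d' → kap b b' ≠ kap c c' → kap b b' ≠ kap d d' → kap c c' ≠ kap d d' →
        det4 (xt x t a a') (xt x t b b') (xt x t c c') (xt x t d d') ≠ 0 := by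
  have hopen : ∀ᶠ t in 𝓝 (0 : ℝ), ∀ i j k, i ≠ j → i ≠ k → j ≠ k →
      n i j ⬝ᵥ xt x t i k < n i j ⬝ᵥ xt x t i j := by
    rw [eventually_all]; intro i
    rw [eventually_all]; intro j
    rw [eventually_all]; intro k
    by_cases hc : i ≠ j ∧ i ≠ k ∧ j ≠ k
    · have c1 : Continuous fun t => n i j ⬝ᵥ xt x t i k := by
        unfold xt
        exact Continuous.dotProduct continuous_const (continuous_mv _ _)
      have c2 : Continuous fun t => n i j ⬝ᵥ xt x t i j := by
        unfold xt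
        exact Continuous.dotProduct continuous_const (continuous_mv _ _)
      have h0 : n i j ⬝ᵥ xt x 0 i k < n i j ⬝ᵥ xt x 0 i j := by
        simp only [xt, mv_zero]
        exact hlt i j k hc.1 hc.2.1 hc.2.2
      filter_upwards [(c1.continuousAt).eventually_lt c2.continuousAt h0] with t ht _ _ _ using ht
    · refine Eventually.of_forall ?_
      intro t h1 h2 h3
      exact absurd ⟨h1, h2, h3⟩ hc
  have hfin : (⋃ q : (Fin 5 × Fin 5) × (Fin 5 × Fin 5) × (Fin 5 × Fin 5) × (Fin 5 × Fin 5),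
      {t : ℝ | (kap q.1.1 q.1.2 ≠ kap q.2.1.1 q.2.1.2 ∧ kap q.1.1 q.1.2 ≠ kap q.2.2.1.1 q.2.2.1.2 ∧
        kap q.1.1 q.1.2 ≠ kap q.2.2.2.1 q.2.2.2.2 ∧ kap q.2.1.1 q.2.1.2 ≠ kap q.2.2.1.1 q.2.2.1.2 ∧
        kap q.2.1.1 q.2.1.2 ≠ kap q.2.2.2.1 q.2.2.2.2 ∧
        kap q.2.2.1.1 q.2.2.1.2 ≠ kap q.2.2.2.1 q.2.2.2.2) ∧
        det4 (xt x t q.1.1 q.1.2) (xt x t q.2.1.1 q.2.1.2) (xt x t q.2.2.1.1 q.2.2.1.2)
          (xt x t q.2.2.2.1 q.2.2.2.2) = 0}).Finite := by
    refine Set.finite_iUnion ?_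
    rintro ⟨⟨a, a'⟩, ⟨b, b'⟩, ⟨c, c'⟩, ⟨d, d'⟩⟩
    by_cases hc : kap a a' ≠ kap b b' ∧ kap a a' ≠ kap c c' ∧
        kap a a' ≠ kap d d' ∧ kap b b' ≠ kap c c' ∧ kap b b' ≠ kap d d' ∧ kap c c' ≠ kap d d'
    · refine (finite_bad (x a a') (x b b') (x c c') (x d d') (curve (kap a a')) (curve (kap b b'))
        (curve (kap c c')) (curve (kap d d')) ?_).subset ?_
      · rw [det4_curve]
        obtain ⟨h1, h2, h3, h4, h5, h6⟩ := hc
        have e : ∀ {u v : ℕ}, u ≠ v → (v : ℝ) - u ≠ 0 := by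
          intro u v huv
          rw [sub_ne_zero]
          exact_mod_cast Ne.symm huv
        exact mul_ne_zero (mul_ne_zero (mul_ne_zero (mul_ne_zero (mul_ne_zero (e h1) (e h2)) (e h3))
          (e h4)) (e h5)) (e h6)
      · intro t ht
        exact ht.2
    · convert Set.finite_empty
      ext t
      simp only [Set.mem_ofPred_eq, Set.mem_empty_iff_false, iff_false]
      intro hh
      exact hc hh.1
  obtain ⟨ε, hε, hball⟩ := Metric.eventually_nhds_iff.1 hopen
  have hinf : (Set.Ioo (0 : ℝ) ε).Infinite := Set.Ioo_infinite hε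
  obtain ⟨t, htI, htF⟩ := (hinf.sdiff hfin).nonempty
  refine ⟨t, hball ?_, ?_⟩
  · rw [Real.dist_eq, sub_zero, abs_of_pos htI.1]; exact htI.2
  · intro a a' b b' c c' d d' h1 h2 h3 h4 h5 h6 h0
    apply htF
    rw [Set.mem_iUnion]
    exact ⟨⟨⟨a, a'⟩, ⟨b, b'⟩, ⟨c, c'⟩, ⟨d, d'⟩⟩, ⟨h1, h2, h3, h4, h5, h6⟩, h0⟩

theorem no_cfg (n x : Fin 5 → Fin 5 → Fin 3 → ℝ) (lam : Fin 5 → Fin 5 → ℝ) (h : Cfg n x lam)
    (hgen : ∀ a a' b b' c c' d d' : Fin 5, kap a a' ≠ kap b b' → kap a a' ≠ kap c c' →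
        kap a a' ≠ kap d d' → kap b b' ≠ kap c c' → kap b b' ≠ kap d d' → kap c c' ≠ kap d d' →
        det4 (x a a') (x b b') (x c c') (x d d') ≠ 0) : False := by
  have hA : ∀ a b c, Lc lam a b c → Lc lam b c a := by
    intro a b c hL
    unfold Lc at *
    nlinarith [hL]
  have hB : ∀ a b c, a ≠ b → a ≠ c → b ≠ c → Lc lam a b c ∨ Lc lam a c b := by
    intro a b c hab hac hbc
    obtain ⟨k, l, hak, hal, hbk, hbl, hck, hcl, hkl⟩ : ∃ k l : Fin 5, a ≠ k ∧ a ≠ l ∧ b ≠ k ∧
        b ≠ l ∧ c ≠ k ∧ c ≠ l ∧ k ≠ l := by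
      clear h hgen
      revert a b c; decide
    rcases dich h hab hac hak hal hbc hbk hbl hck hcl hkl with h1 | h1
    · left; exact h1.2.2.2
    · right; exact h1.2.2.2
  have hC : ∀ a b c d, a ≠ b → a ≠ c → a ≠ d → b ≠ c → b ≠ d → c ≠ d →
      ¬ (Lc lam a b c ∧ Lc lam a c d ∧ Lc lam a d b ∧ Lc lam b d c) := by
    rintro a b c d hab hac had hbc hbd hcd ⟨l1, l2, l3, l4⟩
    unfold Lc at l1 l2 l3 l4
    have P : ∀ i j, i ≠ j → 0 < lam i j := fun i j hij => h.hl i j (Ne.symm hij)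
    have ab := P a b hab
    have ba := P b a (Ne.symm hab)
    have ac := P a c hac
    have ca := P c a (Ne.symm hac)
    have ad := P a d had
    have da := P d a (Ne.symm had)
    have bc := P b c hbc
    have cb := P c b (Ne.symm hbc)
    have bd := P b d hbd
    have db := P d b (Ne.symm hbd)
    have cd := P c d hcd
    have dc := P d c (Ne.symm hcd)
    have m1 := mul_lt_mul'' l1 l2 (by positivity) (by positivity)
    have m2 := mul_lt_mul'' m1 l3 (by positivity) (by positivity)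
    have m3 := mul_lt_mul'' m2 l4 (by positivity) (by positivity)
    nlinarith [m3]
  obtain ⟨π, hπ, h1, h2, h3, h4, h5, h6⟩ := exists_perm (L := Lc lam) hA hB hC
  refine core (X := XX x π) (NN n π) (SS n x π) (table h hπ h1 h2 h3 h4 h5 h6) ?_
  have hk : ∀ u v : ℕ, u < v → v < 8 → kap (π (p1 u)) (π (p2 u)) ≠ kap (π (p1 v)) (π (p2 v)) := by
    have inj : ∀ i j i' j' : Fin 5, kap (π i) (π j) = kap (π i') (π j') →
        (i = i' ∧ j = j') ∨ (i = j' ∧ j = i') := by
      intro i j i' j' hh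
      have key : ∀ a b c d : Fin 5, kap a b = kap c d → (a = c ∧ b = d) ∨ (a = d ∧ b = c) := by
        decide
      rcases key _ _ _ _ hh with ⟨e1, e2⟩ | ⟨e1, e2⟩
      · left; exact ⟨hπ e1, hπ e2⟩
      · right; exact ⟨hπ e1, hπ e2⟩
    intro u v huv hv heq
    have := inj _ _ _ _ heq
    interval_cases v <;> interval_cases u <;> revert this <;> decide
  intro a b c d hab hbc hcd hd
  exact hgen _ _ _ _ _ _ _ _ (hk a b hab (by omega)) (hk a c (by omega) (by omega))
    (hk a d (by omega) hd) (hk b c hbc (by omega)) (hk b d (by omega) hd) (hk c d hcd hd)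

/-- There is no tangled family of five tetrahedra (algebraic form). -/
theorem no_five (n x : Fin 5 → Fin 5 → Fin 3 → ℝ) (hn : ∀ i j, n j i = - n i j)
    (hx : ∀ i j, x j i = x i j)
    (hlt : ∀ i j k, i ≠ j → i ≠ k → j ≠ k → n i j ⬝ᵥ x i k < n i j ⬝ᵥ x i j)
    (hpos : ∀ i, ∃ c : Fin 5 → ℝ, (∀ j, j ≠ i → 0 < c j) ∧
      (∑ j ∈ univ.erase i, c j • n i j) = 0) : False := by
  choose lam hl hsum using hpos
  obtain ⟨t, ht, hgen⟩ := perturb n x hlt
  refine no_cfg n (xt x t) lam ⟨hn, ?_, ht, hl, hsum⟩ hgen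
  intro i j
  unfold xt
  rw [hx i j, kap_symm i j]

end TangleSat
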