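import Mathlib

/-!
A labelling lemma: every cyclic orientation of the triples of a five element set, satisfying
the cocycle condition, contains a certain pattern of six oriented triples after relabelling.
-/

namespace TangleSat

def tabN : Nat :=
  2474666507543777752276364367440917747423569464998486720610909381318396034064403211501561083814993519001886345514775002608364680857791529361717210370968285132505951925994526867456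

/-- `T m a b c`: the orientation of the triple `a b c` coded by the bits of `m`. -/
def T (m a b c : Nat) : Bool :=
  Nat.testBit m ((tabN >>> ((25 * a + 5 * b + c) * 5)) % 32 / 2) !=
    ((tabN >>> ((25 * a + 5 * b + c) * 5)) % 2 == 1)

def quads : List (Nat × Nat × Nat × Nat) :=
  [(0, 1, 2, 3), (0, 1, 2, 4), (0, 1, 3, 4), (0, 2, 3, 4), (1, 2, 3, 4),
   (1, 0, 2, 3), (1, 0, 2, 4), (1, 0, 3, 4), (2, 0, 3, 4), (2, 1, 3, 4)]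

def coc (m : Nat) : Bool :=
  quads.all fun q =>
    !(T m q.1 q.2.1 q.2.2.1 && (T m q.1 q.2.2.1 q.2.2.2 && (T m q.1 q.2.2.2 q.2.1 &&
      T m q.2.1 q.2.2.2 q.2.2.1)))

def perms : List (Nat × Nat × Nat × Nat × Nat) :=
  [(0, 1, 2, 3, 4), (0, 1, 2, 4, 3), (0, 1, 3, 2, 4), (0, 1, 3, 4, 2), (0, 1, 4, 2, 3), (0, 1, 4,
   3, 2), (0, 2, 1, 3, 4), (0, 2, 1, 4, 3), (0, 2, 3, 1, 4), (0, 2, 3, 4, 1), (0, 2, 4, 1, 3), (0,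
   2, 4, 3, 1), (0, 3, 1, 2, 4), (0, 3, 1, 4, 2), (0, 3, 2, 1, 4), (0, 3, 2, 4, 1), (0, 3, 4, 1,
   2), (0, 3, 4, 2, 1), (0, 4, 1, 2, 3), (0, 4, 1, 3, 2), (0, 4, 2, 1, 3), (0, 4, 2, 3, 1), (0, 4,
   3, 1, 2), (0, 4, 3, 2, 1), (1, 0, 2, 3, 4), (1, 0, 2, 4, 3), (1, 0, 3, 2, 4), (1, 0, 3, 4, 2),
   (1, 0, 4, 2, 3), (1, 0, 4, 3, 2), (1, 2, 0, 3, 4), (1, 2, 0, 4, 3), (1, 2, 3, 0, 4), (1, 2, 3,
   4, 0), (1, 2, 4, 0, 3), (1, 2, 4, 3, 0), (1, 3, 0, 2, 4), (1, 3, 0, 4, 2), (1, 3, 2, 0, 4), (1,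
   3, 2, 4, 0), (1, 3, 4, 0, 2), (1, 3, 4, 2, 0), (1, 4, 0, 2, 3), (1, 4, 0, 3, 2), (1, 4, 2, 0,
   3), (1, 4, 2, 3, 0), (1, 4, 3, 0, 2), (1, 4, 3, 2, 0), (2, 0, 1, 3, 4), (2, 0, 1, 4, 3), (2, 0,
   3, 1, 4), (2, 0, 3, 4, 1), (2, 0, 4, 1, 3), (2, 0, 4, 3, 1), (2, 1, 0, 3, 4), (2, 1, 0, 4, 3),
   (2, 1, 3, 0, 4), (2, 1, 3, 4, 0), (2, 1, 4, 0, 3), (2, 1, 4, 3, 0), (2, 3, 0, 1, 4), (2, 3, 0,
   4, 1), (2, 3, 1, 0, 4), (2, 3, 1, 4, 0), (2, 3, 4, 0, 1), (2, 3, 4, 1, 0), (2, 4, 0, 1, 3), (2,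
   4, 0, 3, 1), (2, 4, 1, 0, 3), (2, 4, 1, 3, 0), (2, 4, 3, 0, 1), (2, 4, 3, 1, 0), (3, 0, 1, 2,
   4), (3, 0, 1, 4, 2), (3, 0, 2, 1, 4), (3, 0, 2, 4, 1), (3, 0, 4, 1, 2), (3, 0, 4, 2, 1), (3, 1,
   0, 2, 4), (3, 1, 0, 4, 2), (3, 1, 2, 0, 4), (3, 1, 2, 4, 0), (3, 1, 4, 0, 2), (3, 1, 4, 2, 0),
   (3, 2, 0, 1, 4), (3, 2, 0, 4, 1), (3, 2, 1, 0, 4), (3, 2, 1, 4, 0), (3, 2, 4, 0, 1), (3, 2, 4,
   1, 0), (3, 4, 0, 1, 2), (3, 4, 0, 2, 1), (3, 4, 1, 0, 2), (3, 4, 1, 2, 0), (3, 4, 2, 0, 1), (3,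
   4, 2, 1, 0), (4, 0, 1, 2, 3), (4, 0, 1, 3, 2), (4, 0, 2, 1, 3), (4, 0, 2, 3, 1), (4, 0, 3, 1,
   2), (4, 0, 3, 2, 1), (4, 1, 0, 2, 3), (4, 1, 0, 3, 2), (4, 1, 2, 0, 3), (4, 1, 2, 3, 0), (4, 1,
   3, 0, 2), (4, 1, 3, 2, 0), (4, 2, 0, 1, 3), (4, 2, 0, 3, 1), (4, 2, 1, 0, 3), (4, 2, 1, 3, 0),
   (4, 2, 3, 0, 1), (4, 2, 3, 1, 0), (4, 3, 0, 1, 2), (4, 3, 0, 2, 1), (4, 3, 1, 0, 2), (4, 3, 1,
   2, 0), (4, 3, 2, 0, 1), (4, 3, 2, 1, 0)]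

def pattern (m : Nat) (p : Nat × Nat × Nat × Nat × Nat) : Bool :=
  T m p.2.1 p.2.2.2.2 p.2.2.1 && (T m p.2.1 p.2.2.2.1 p.2.2.1 && (T m p.1 p.2.2.2.1 p.2.2.2.2 &&
    (T m p.1 p.2.2.2.2 p.2.2.1 && (T m p.1 p.2.1 p.2.2.2.2 && T m p.1 p.2.1 p.2.2.1))))

theorem pattern_exists :
    ((List.range 1024).all fun m => !coc m || perms.any (pattern m)) = true := by
  decide +kernel

end TangleSat
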